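import Pool.Agent.H88.CHS.CO
import Pool.Agent.H33.JS.NU

/-!
# The first stage: existence
-/

set_option autoImplicit false

namespace Pool.Agent.H74.CH

open Classical Pool.Agent.H46.CH
open Pool.Agent.H8.VR (C2)
open Pool.Agent.H8.JS (NTM Cfg Mv IsComp lang num)

/-- the vector of a configuration is unique -/
theorem VC_unique (hCO : T_CO) {M : NTM} {B : ℕ} {cd : TS M → ℕ} (hc : Code M B cd) {d n : ℕ}
    {c : Cfg M} {v v' : Ct M.k d → ℕ} (h : VC B cd n c v) (h' : VC B cd n c v') : v = v' := by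
  obtain ⟨h1, h2, h3, h4, h5, h6, h7, h8⟩ := h
  obtain ⟨h1', h2', h3', h4', h5', h6', h7', h8'⟩ := h'
  funext j
  cases j with
  | lf j => rw [h1, h1']
  | rt j => exact (hCO M B cd hc).1 _ _ _ (h2 j) (h2' j)
  | N => rw [h3, h3']
  | P => rw [h4, h4']
  | Z => rw [h5, h5']
  | D => rw [h6, h6']
  | u i => rw [h7, h7']
  | w i => rw [h8, h8']

/-- along the computation -/
theorem along (hCO : T_CO) (hS1 : T_S1) (hLD : T_LD) {M : NTM} {B : ℕ} {cd : TS M → ℕ}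
    (hc : Code M B cd) (d : ℕ) (x : List Bool) (l : ℕ) (cc : ℕ → Cfg M)
    (hcc : IsComp M (Pool.Agent.H8.JS.init M x) l cc) (K : ℕ)
    (hK : ∀ i ≤ l, ∃ v : Ct M.k d → ℕ, VC B cd (num x) (cc i) v ∧ 1 + ∑ j, v j ≤ K) :
    ∀ i ≤ l, ∃ (e : Ins M d) (u v : Ct M.k d → ℕ) (s : ℕ),
      (tmA M B cd d).Path .start (fun _ => 0) e u s ∧ (tmA M B cd d).Rel e u v ∧
      VC B cd (num x) (cc i) v ∧ (∀ τ : Tr M, τ.1 = (cc i).q → τ.ok → Ins.nx e (.pop τ)) ∧
      ((cc i).q = M.acc → Ins.nx e .clear) ∧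
      s + (1 + ∑ j, u j) ≤ (x.length + 3) * (1 + 2 * num x + B ^ (x.length + 1)) + i * (2 * K) := by
  intro i
  induction i with
  | zero =>
    intro hi
    obtain ⟨v, hv, -⟩ := hK 0 hi
    have hv' := hv
    rw [hcc.1] at hv'
    obtain ⟨v₁, s, h1, h2, h3⟩ := hLD M B cd d hc x v hv'
    refine ⟨.endl, v₁, v, s, h1, h2, hv, fun τ h4 h5 => ⟨?_, h5⟩, fun h4 => ?_, by omega⟩
    · rw [h4, hcc.1]
      rfl
    · rw [hcc.1] at h4
      exact h4
  | succ i ih =>
    intro hi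
    obtain ⟨e, u, v, s, h1, h2, h3, h4, -, h6⟩ := ih (by omega)
    obtain ⟨v₀, hv₀, hle⟩ := hK i (by omega)
    have hvv : v₀ = v := VC_unique hCO hc hv₀ h3
    rw [hvv] at hle
    obtain ⟨τ, w, v', t1, t2, t3, t4, t5, t6, t7⟩ := hS1 M B cd d (num x) hc (cc i) (cc (i + 1)) v
      h3 (hcc.2 i (by omega))
    refine ⟨.push τ, w, v', s + (1 + ∑ j, u j) + (1 + ∑ j, v j), ?_, t5, t6, ?_, ?_, ?_⟩
    · refine AM.Path.snoc _ _ _ _ _ _ _ (AM.Path.snoc _ _ _ _ _ _ _ h1 h2 (h4 τ t2 t1)) t4 ?_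
      show τ = τ
      rfl
    · intro τ' h7 h8
      refine ⟨?_, h8⟩
      rw [h7, t3]
    · intro h7
      show τ.2.2.1 = M.acc
      rw [t3, h7]
    · have h8 : ∑ j, w j ≤ ∑ j, v j := Finset.sum_le_sum fun j _ => t7 j
      have h9 : (i + 1) * (2 * K) = i * (2 * K) + 2 * K := by ring
      rw [h9]
      omega

theorem sum_single {k d : ℕ} (f : Ct k d → ℕ) (a : Ct k d) (h : ∀ j, j ≠ a → f j = 0) :
    ∑ j, f j = f a := Finset.sum_eq_single a (fun j _ hj => h j hj) fun h => absurd (Finset.mem_univ a) h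

theorem pf_A1 (hIR : T_IR) (hS1 : T_S1) (hLD : T_LD) (hSHC : T_SHC) (hVS : T_VS) : T_A1 := by
  intro M c B cd hc hsp
  obtain ⟨d₃, hd₃⟩ := hSHC M c hsp
  obtain ⟨d₁, hd₁⟩ := hVS M c B cd hc hsp
  refine ⟨2 * B + d₁ + d₃ + 8, fun d x hacc => ?_⟩
  obtain ⟨l, cc, hcc, hq, hl⟩ := hd₃ x hacc
  obtain ⟨e, u, v, s, h1, h2, h3, -, h5, h6⟩ := along Pool.Agent.H88.CH.pf_CO hS1 hLD hc d x l cc
    hcc _ (hd₁ d x l cc hcc) l le_rfl
  obtain ⟨v₀, hv₀, hle⟩ := hd₁ d x l cc hcc l le_rfl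
  have hvv : v₀ = v := VC_unique Pool.Agent.H88.CH.pf_CO hc hv₀ h3
  rw [hvv] at hle
  have hN : v .N = num x := h3.2.2.1
  refine ⟨s + (1 + ∑ j, u j) + (1 + ∑ j, v j) + (1 + num x) + (1 + num x), ?_, fun D => ?_⟩
  · have hnum := (Pool.Agent.H33.JS.num_bd x).1
    set n := num x with hn
    set K := n + 1 with hK
    have hK2 : 2 ≤ K := by
      have : 1 ≤ 2 ^ x.length := Nat.one_le_two_pow
      omega
    have hlen : x.length + 3 ≤ K ^ 2 := by
      have h7 : x.length < 2 ^ x.length := Nat.lt_two_pow_self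
      nlinarith
    have h2x : 2 ^ (x.length + 1) ≤ K ^ 2 := by
      rw [pow_succ]
      nlinarith
    have hB : B ^ (x.length + 1) ≤ K ^ (2 * B) := by
      calc B ^ (x.length + 1) ≤ (2 ^ B) ^ (x.length + 1) :=
            Nat.pow_le_pow_left Nat.lt_two_pow_self.le _
        _ = (2 ^ (x.length + 1)) ^ B := by rw [← pow_mul, ← pow_mul, mul_comm]
        _ ≤ (K ^ 2) ^ B := Nat.pow_le_pow_left h2x _
        _ = K ^ (2 * B) := by rw [← pow_mul]
    have hmono : ∀ a b : ℕ, a ≤ b → K ^ a ≤ K ^ b := fun a b h =>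
      Nat.pow_le_pow_right (by omega) h
    set m := 2 * B + d₁ + d₃ + 6 with hm
    have e1 : (x.length + 3) * (1 + 2 * n + B ^ (x.length + 1)) ≤ K ^ m := by
      have t1 : 1 + 2 * n ≤ K ^ 2 := by nlinarith
      have t2 : 1 + 2 * n + B ^ (x.length + 1) ≤ K ^ (2 * B + 3) := by
        have t3 : K ^ 2 ≤ K ^ (2 * B + 2) := hmono _ _ (by omega)
        have t4 : K ^ (2 * B) ≤ K ^ (2 * B + 2) := hmono _ _ (by omega)
        have t5 : K ^ (2 * B + 3) = K ^ (2 * B + 2) * K := by rw [← pow_succ]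
        rw [t5]
        have t6 : 0 < K ^ (2 * B + 2) := by positivity
        nlinarith
      calc (x.length + 3) * (1 + 2 * n + B ^ (x.length + 1)) ≤ K ^ 2 * K ^ (2 * B + 3) :=
            Nat.mul_le_mul hlen t2
        _ = K ^ (2 + (2 * B + 3)) := (pow_add K 2 (2 * B + 3)).symm
        _ ≤ K ^ m := hmono _ _ (by omega)
    have e2 : l * (2 * K ^ d₁) ≤ K ^ m := by
      calc l * (2 * K ^ d₁) ≤ K ^ d₃ * (K ^ 1 * K ^ d₁) := by
            apply Nat.mul_le_mul hl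
            apply Nat.mul_le_mul_right
            rw [pow_one]
            exact hK2
        _ = K ^ (d₃ + (1 + d₁)) := by rw [pow_add, pow_add]
        _ ≤ K ^ m := hmono _ _ (by omega)
    have e3 : K ^ d₁ ≤ K ^ m := hmono _ _ (by omega)
    have e4 : 2 * K ≤ K ^ m := by
      calc 2 * K ≤ K ^ 2 := by nlinarith
        _ ≤ K ^ m := hmono _ _ (by omega)
    have e5 : K ^ (2 * B + d₁ + d₃ + 8) = K ^ m * K ^ 2 := by
      rw [← pow_add]
    have e6 : 4 ≤ K ^ 2 := by nlinarith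
    have e7 : 4 * K ^ m ≤ K ^ m * K ^ 2 := by
      rw [mul_comm]
      exact Nat.mul_le_mul_left _ e6
    rw [e5]
    omega
  · obtain ⟨w, hw⟩ : ∃ w : Ct M.k d → ℕ, w = fun j => if j = .N then v .N else 0 := ⟨_, rfl⟩
    obtain ⟨z, hz⟩ : ∃ z : Ct M.k d → ℕ, z = fun j => if j = .D then D else w j := ⟨_, rfl⟩
    have r1 : (tmA M B cd d).Rel .clear v w := by
      rw [(hIR M B cd d v w).2.2.2.1, hw]
      exact fun _ => rfl
    have r2 : (tmA M B cd d).Rel .pad w z := by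
      rw [(hIR M B cd d w z).2.2.2.2.1, hz]
      refine ⟨?_, fun j hj => ?_⟩
      · rw [hw]
        simp
      · simp [hj]
    have hsw : ∑ j, w j = num x := by
      rw [sum_single w .N, hw]
      · simp [hN]
      · intro j hj
        rw [hw]
        simp [hj]
    have hsz : ∑ j, z j = num x + D := by
      have h7 : ∀ j, z j = w j + if j = .D then D else 0 := by
        intro j
        rw [hz]
        by_cases hj : j = .D
        · subst hj
          simp [hw]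
        · simp [hj]
      simp only [h7]
      rw [Finset.sum_add_distrib, hsw]
      simp
    have n1 : (tmA M B cd d).nx (Ins.clear : Ins M d) (Ins.pad : Ins M d) := trivial
    have n2 : (tmA M B cd d).nx (Ins.pad : Ins M d) (Ins.begB : Ins M d) := trivial
    refine ⟨z, _, AM.Path.snoc _ _ _ _ _ _ _ (AM.Path.snoc _ _ _ _ _ _ _
      (AM.Path.snoc _ _ _ _ _ _ _ h1 h2 (h5 hq)) r1 n1) r2 n2, ?_, ?_⟩
    · rw [hz, hw]
      simp [hN]
    · rw [hsz, hsw]
      ring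

end Pool.Agent.H74.CH
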