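import Pool.Agent.H46.CH.LT

/-!
# From runs to structures
-/

set_option autoImplicit false

namespace Pool.Agent.H74.CH

open Classical Pool.Agent.H46.CH
open Pool.Agent.H8.VR (C2)
open Pool.Agent.H8.JS (NTM Cfg Mv IsComp lang num)

/-- the objects of a block: the head or a token -/
abbrev Ob (J : Type) : Type := Option (Σ _ : J, ℕ)

section
variable {J : Type} [Fintype J]

/-- the block of a vector -/
noncomputable def blk (v : J → ℕ) : Finset (Ob J) :=
  Finset.insertNone (Finset.univ.sigma fun j => Finset.range (v j))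

theorem none_mem (v : J → ℕ) : (none : Ob J) ∈ blk v := by simp [blk]

theorem some_mem (v : J → ℕ) (q : Σ _ : J, ℕ) : (some q : Ob J) ∈ blk v ↔ q.2 < v q.1 := by
  simp [blk]

theorem card_blk (v : J → ℕ) : (blk v).card = 1 + ∑ j, v j := by
  simp [blk, add_comm]

/-- `G` is a star forest between two blocks -/
def Gd (G : Ob J → Ob J → Prop) (v v' : J → ℕ) (A : J → J → ℕ) (c : J → ℕ) : Prop :=
  (∀ x y, G x y → x ∈ blk v ∧ y ∈ blk v' ∧ y ≠ none) ∧
  (∀ x ∈ blk v, ∀ j, {i | G x (some ⟨j, i⟩)}.ncard =
    match (x.map Sigma.fst : Option J) with | some k => A j k | none => c j) ∧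
  (∀ y ∈ blk v', y ≠ none → ∃ x, G x y) ∧ ∀ x x' y, G x y → G x' y → x = x'

theorem exG (hEX : T_EX) (v v' : J → ℕ) (A : J → J → ℕ) (c : J → ℕ)
    (h : ∀ j, v' j = c j + ∑ k, A j k * v k) : ∃ G, Gd G v v' A c := by
  obtain ⟨f, hf⟩ := hEX J v v' A c h
  let em : Option (Σ k, Fin (v k)) → Ob J := Option.map fun q => ⟨q.1, q.2.1⟩
  have hem : Function.Injective em := by
    apply Option.map_injective
    rintro ⟨a, b⟩ ⟨a', b'⟩ h
    simp only [Sigma.mk.injEq, heq_eq_eq] at h
    obtain ⟨h1, h2⟩ := h
    subst h1
    congr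
    exact Fin.ext h2
  refine ⟨fun x y => ∃ (j : J) (i : ℕ) (hi : i < v' j), y = some ⟨j, i⟩ ∧
    em (f ⟨j, ⟨i, hi⟩⟩) = x, ?_, ?_, ?_, ?_⟩
  · rintro x y ⟨j, i, hi, rfl, rfl⟩
    refine ⟨?_, ?_, by simp⟩
    · cases f ⟨j, ⟨i, hi⟩⟩ with
      | none => exact none_mem _
      | some q =>
        rw [show em (some q) = some ⟨q.1, q.2.1⟩ from rfl, some_mem]
        exact q.2.2
    · rw [some_mem]
      exact hi
  · intro x hx j
    obtain ⟨x', rfl⟩ : ∃ x', x = em x' := by
      cases x with
      | none => exact ⟨none, rfl⟩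
      | some q =>
        rw [some_mem] at hx
        exact ⟨some ⟨q.1, ⟨q.2, hx⟩⟩, rfl⟩
    have h1 : {i : ℕ | ∃ (j' : J) (i' : ℕ) (hi : i' < v' j'), (some ⟨j, i⟩ : Ob J) = some ⟨j', i'⟩ ∧
        em (f ⟨j', ⟨i', hi⟩⟩) = em x'} = Fin.val '' {i : Fin (v' j) | f ⟨j, i⟩ = x'} := by
      ext i
      constructor
      · rintro ⟨j', i', hi, h2, h3⟩
        simp only [Option.some.injEq, Sigma.mk.injEq, heq_eq_eq] at h2
        obtain ⟨h4, h5⟩ := h2
        subst h4 h5
        exact ⟨⟨i, hi⟩, hem h3, rfl⟩
      · rintro ⟨⟨i', hi⟩, h2, rfl⟩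
        refine ⟨j, i', hi, rfl, ?_⟩
        rw [h2]
    rw [h1, Set.ncard_image_of_injective _ Fin.val_injective, hf]
    cases x' <;> rfl
  · intro y hy hy0
    cases y with
    | none => exact absurd rfl hy0
    | some q =>
      rw [some_mem] at hy
      exact ⟨_, q.1, q.2, hy, rfl, rfl⟩
  · rintro x x' y ⟨j, i, hi, rfl, rfl⟩ ⟨j', i', hi', h2, rfl⟩
    simp only [Option.some.injEq, Sigma.mk.injEq, heq_eq_eq] at h2
    obtain ⟨h4, h5⟩ := h2
    subst h4 h5
    rfl

/-- the universe -/
noncomputable def un (T : ℕ) (v : ℕ → J → ℕ) : Finset (Σ _ : ℕ, Ob J) :=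
  (Finset.range (T + 1)).sigma fun t => blk (v t)

theorem mem_un (T : ℕ) (v : ℕ → J → ℕ) (p : Σ _ : ℕ, Ob J) :
    p ∈ un T v ↔ p.1 ≤ T ∧ p.2 ∈ blk (v p.1) := by
  simp only [un, Finset.mem_sigma, Finset.mem_range, Nat.lt_succ_iff]

/-- counting in a block -/
theorem count (T : ℕ) (v : ℕ → J → ℕ) (t : ℕ) (ht : t ≤ T) (Q : Ob J → Prop) :
    {y : un T v | y.1.1 = t ∧ Q y.1.2}.ncard = {o : Ob J | o ∈ blk (v t) ∧ Q o}.ncard := by
  have h1 : {o : Ob J | o ∈ blk (v t) ∧ Q o} =
      (fun y : un T v => y.1.2) '' {y : un T v | y.1.1 = t ∧ Q y.1.2} := by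
    ext o
    constructor
    · rintro ⟨h1, h2⟩
      exact ⟨⟨⟨t, o⟩, (mem_un T v _).2 ⟨ht, h1⟩⟩, ⟨rfl, h2⟩, rfl⟩
    · rintro ⟨y, ⟨rfl, h2⟩, rfl⟩
      exact ⟨((mem_un T v _).1 y.2).2, h2⟩
  rw [h1, Set.InjOn.ncard_image]
  rintro ⟨⟨a, b⟩, h⟩ ⟨h1, -⟩ ⟨⟨a', b'⟩, h'⟩ ⟨h2, -⟩ h3
  simp only at h1 h2 h3
  subst h1 h2 h3
  rfl

/-- the sizes of the stages -/
theorem count_stage (T : ℕ) (v : ℕ → J → ℕ) (s : ℕ → Bool) (b : Bool) :
    {y : un T v | s y.1.1 = b}.ncard =
      ∑ t ∈ Finset.range (T + 1), if s t = b then 1 + ∑ j, v t j else 0 := by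
  have h1 : {y : un T v | s y.1.1 = b}.ncard = ((un T v).filter fun p => s p.1 = b).card := by
    rw [← Set.ncard_coe_finset, ← Set.ncard_image_of_injective _ Subtype.val_injective]
    congr 1
    ext p
    simp only [Set.mem_image, Set.mem_ofPred_eq, Subtype.exists, exists_and_left, exists_prop,
      exists_eq_right_right, Finset.coe_filter]
    tauto
  rw [h1, Finset.card_filter, un, Finset.sum_sigma]
  refine Finset.sum_congr rfl fun t _ => ?_
  by_cases h : s t = b
  · simp [h, card_blk]
  · simp [h]

theorem ncard_sing {α : Type} {S : Set α} {a : α} (h : ∀ x, x ∈ S ↔ x = a) : S.ncard = 1 := by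
  have : S = {a} := by
    ext x
    rw [h x, Set.mem_singleton_iff]
  rw [this, Set.ncard_singleton]

theorem ncard_zero {α : Type} {S : Set α} (h : ∀ x, x ∉ S) : S.ncard = 0 := by
  have : S = ∅ := Set.eq_empty_iff_forall_notMem.2 h
  rw [this, Set.ncard_empty]

/-- tokens with a given counter -/
theorem ncard_tok (v : J → ℕ) (j : J) (Q : Ob J → Prop) (hQ : ∀ o, Q o → o ∈ blk v) :
    {o : Ob J | o ∈ blk v ∧ Q o ∧ (o.map Sigma.fst : Option J) = some j}.ncard =
      {i : ℕ | Q (some ⟨j, i⟩)}.ncard := by
  have h1 : {o : Ob J | o ∈ blk v ∧ Q o ∧ (o.map Sigma.fst : Option J) = some j} =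
      (fun i : ℕ => (some ⟨j, i⟩ : Ob J)) '' {i : ℕ | Q (some ⟨j, i⟩)} := by
    ext o
    constructor
    · rintro ⟨h1, h2, h3⟩
      cases o with
      | none => simp at h3
      | some q =>
        obtain ⟨a, b⟩ := q
        simp only [Option.map_some, Option.some.injEq] at h3
        subst h3
        exact ⟨b, h2, rfl⟩
    · rintro ⟨i, h2, rfl⟩
      exact ⟨hQ _ h2, h2, rfl⟩
  rw [h1, Set.ncard_image_of_injective]
  intro a b h
  simpa using h

end

theorem pf_CR (hEX : T_EX) : T_CR := by
  intro J _ M T e v hrun
  have hG : ∀ t, ∃ G : Ob J → Ob J → Prop, t < T → if M.dir (e t) = true then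
      Gd G (v t) (v (t + 1)) (M.A (e t)) (M.c (e t)) else
      Gd (fun x y => G y x) (v (t + 1)) (v t) (M.A (e t)) (M.c (e t)) := by
    intro t
    by_cases ht : t < T
    · have h := hrun.rel t ht
      unfold AM.Rel at h
      by_cases hd : M.dir (e t) = true
      · rw [if_pos hd] at h
        obtain ⟨G, hG⟩ := exG hEX _ _ _ _ h
        exact ⟨G, fun _ => by rw [if_pos hd]; exact hG⟩
      · rw [if_neg hd] at h
        obtain ⟨G, hG⟩ := exG hEX _ _ _ _ h
        exact ⟨fun x y => G y x, fun _ => by rw [if_neg hd]; exact hG⟩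
    · exact ⟨fun _ _ => False, fun h => absurd h ht⟩
  choose G hG using hG
  have hT := hrun.pos
  have hz : ∀ t, t = 0 ∨ t = T → ∀ o ∈ blk (v t), o = none := by
    intro t ht o ho
    cases o with
    | none => rfl
    | some q =>
      rw [some_mem] at ho
      rcases ht with rfl | rfl
      · rw [hrun.zero] at ho
        omega
      · rw [hrun.zero'] at ho
        omega
  -- properties of the edges
  have hG0 : ∀ t < T, ∀ x y, G t x y → x ∈ blk (v t) ∧ y ∈ blk (v (t + 1)) ∧
      (x ≠ none ∨ y ≠ none) := by
    intro t ht x y h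
    have h1 := hG t ht
    by_cases hd : M.dir (e t) = true
    · rw [if_pos hd] at h1
      obtain ⟨h2, h3, h4⟩ := h1.1 x y h
      exact ⟨h2, h3, Or.inr h4⟩
    · rw [if_neg hd] at h1
      obtain ⟨h2, h3, h4⟩ := h1.1 y x h
      exact ⟨h3, h2, Or.inl h4⟩
  let R : ℕ → un T v → un T v → Prop := fun i x y => match i with
    | 0 => x.1.1 ≤ y.1.1 ∧ y.1.1 ≤ x.1.1 + 1
    | 1 => y.1.1 = x.1.1 + 1 ∧ G x.1.1 x.1.2 y.1.2
    | _ => False
  let lab : un T v → M.Lb := fun x => (if x.1.1 = 0 then none else some (e (x.1.1 - 1)),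
    if x.1.1 = T then none else some (e x.1.1), x.1.2.map Sigma.fst)
  have hb0 : ∀ x y, bt R x y 0 ↔ x.1.1 ≤ y.1.1 ∧ y.1.1 ≤ x.1.1 + 1 := fun _ _ => Iff.rfl
  have hb1 : ∀ x y, bt R x y 1 ↔ y.1.1 = x.1.1 + 1 ∧ G x.1.1 x.1.2 y.1.2 := fun _ _ => Iff.rfl
  have hl1 : ∀ x, (lab x).1 = if x.1.1 = 0 then none else some (e (x.1.1 - 1)) := fun _ => rfl
  have hl2 : ∀ x, (lab x).2.1 = if x.1.1 = T then none else some (e x.1.1) := fun _ => rfl
  have hl3 : ∀ x, (lab x).2.2 = (x.1.2.map Sigma.fst : Option J) := fun _ => rfl
  have hle : ∀ x : un T v, x.1.1 ≤ T := fun x => ((mem_un T v _).1 x.2).1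
  have hbl : ∀ x : un T v, x.1.2 ∈ blk (v x.1.1) := fun x => ((mem_un T v _).1 x.2).2
  have hmap : ∀ o : Ob J, (o.map Sigma.fst : Option J) = none ↔ o = none := by
    intro o
    cases o <;> simp
  clear_value R lab
  have hpn : ∀ (x : un T v) (D : M.Lb → (Fin 3 → Prop) → (Fin 3 → Prop) → Prop) (t : ℕ), t ≤ T →
      ∀ Q : Ob J → Prop, (∀ y : un T v, (y ≠ x ∧ D (lab y) (bt R x y) (bt R y x)) ↔
        y.1.1 = t ∧ Q y.1.2) → pn lab R D x = {o : Ob J | o ∈ blk (v t) ∧ Q o}.ncard := by
    intro x D t ht Q h
    rw [← count T v t ht Q]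
    unfold pn
    congr 1
    ext y
    exact h y
  have hpn0 : ∀ (x : un T v) (D : M.Lb → (Fin 3 → Prop) → (Fin 3 → Prop) → Prop),
      (∀ y : un T v, ¬ D (lab y) (bt R x y) (bt R y x)) → pn lab R D x = 0 := by
    intro x D h
    unfold pn
    exact ncard_zero fun y hy => h y hy.2
  have hne : ∀ x y : un T v, x.1.1 ≠ y.1.1 → y ≠ x := by
    intro x y h h'
    exact h (by rw [h'])
  refine ⟨un T v, inferInstance, R, lab, ?_, ⟨?_, ?_, ?_⟩, ?_⟩
  · refine ⟨T, fun x => x.1.1, fun i => ⟨?_, fun hi => ?_⟩, fun x y => hb0 x y⟩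
    · rintro ⟨x, rfl⟩
      exact hle x
    · exact ⟨⟨⟨i, none⟩, (mem_un T v _).2 ⟨hi, none_mem _⟩⟩, rfl⟩
  · intro x
    refine ⟨fun h => ?_, fun h => ?_⟩
    · rw [hl1] at h
      have h0 : x.1.1 = 0 := by
        by_contra h1
        rw [if_neg h1] at h
        exact absurd h (by simp)
      refine ⟨?_, e 0, ?_, hrun.ini⟩
      · rw [hl3, hmap]
        exact hz _ (Or.inl h0) _ (hbl x)
      · rw [hl2, if_neg (by omega), h0]
    · rw [hl2] at h
      have h0 : x.1.1 = T := by
        by_contra h1
        rw [if_neg h1] at h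
        exact absurd h (by simp)
      refine ⟨?_, e (T - 1), ?_, hrun.fi⟩
      · rw [hl3, hmap]
        exact hz _ (Or.inr h0) _ (hbl x)
      · rw [hl1, if_neg (by omega), h0]
  · intro x y hxy
    refine ⟨fun ha hb => ?_, fun ha hb => ?_, fun ha => ?_⟩
    · rw [hb0] at ha hb
      have h0 : x.1.1 = y.1.1 := by omega
      rw [hl1, hl1, hl2, hl2, h0]
      exact ⟨rfl, rfl⟩
    · rw [hb0] at ha hb
      have h0 : y.1.1 = x.1.1 + 1 := by omega
      have h1 := hle y
      refine ⟨e x.1.1, ?_, ?_, fun i' hi' => ?_⟩
      · rw [hl2, if_neg (by omega)]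
      · rw [hl1, if_neg (by omega), h0, Nat.add_sub_cancel]
      · rw [hl2] at hi'
        by_cases h2 : y.1.1 = T
        · rw [if_pos h2] at hi'
          exact absurd hi' (by simp)
        · rw [if_neg h2, Option.some.injEq] at hi'
          rw [← hi', h0]
          exact hrun.nx _ (by omega)
    · rw [hb1] at ha
      obtain ⟨h0, h1⟩ := ha
      have h2 := hle y
      obtain ⟨h3, h4, h5⟩ := hG0 x.1.1 (by omega) _ _ h1
      refine ⟨?_, ?_, ?_⟩
      · rw [hb0]; omega
      · rw [hb0]; omega
      · rw [hl3, hl3, hmap, hmap]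
        rintro ⟨h6, h7⟩
        rcases h5 with h5 | h5
        · exact h5 h6
        · exact h5 h7
  · intro x p hp
    have hp' : p ∈ [((fun l' a b => a 0 ∧ b 0 ∧ l'.2.2 = none :
          M.Lb → (Fin 3 → Prop) → (Fin 3 → Prop) → Prop),
          if (lab x).2.2 = none then 0 else 1, true),
        (fun _ a b => a 0 ∧ ¬ b 0, if (lab x).2.1 = none then 0 else 1,
          if (lab x).2.1 = none then true else false),
        (fun _ a b => b 0 ∧ ¬ a 0, if (lab x).1 = none then 0 else 1,
          if (lab x).1 = none then true else false)] ++ M.outc (lab x) ++ M.inc (lab x) := hp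
    rw [List.mem_append, List.mem_append] at hp'
    rcases hp' with (hp' | hp') | hp'
    · simp only [List.mem_cons, List.not_mem_nil, or_false] at hp'
      rcases hp' with rfl | rfl | rfl
      · -- the heads
        show (if true = true then _ else _)
        rw [if_pos rfl]
        show pn lab R _ x = if (lab x).2.2 = none then 0 else 1
        rw [hpn x _ x.1.1 (hle x) (fun o => o = none ∧ x.1.2 ≠ none)]
        · rw [hl3]
          simp only [hmap]
          by_cases h : x.1.2 = none
          · rw [if_pos h]
            exact ncard_zero fun o ho => ho.2.2 h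
          · rw [if_neg h]
            apply ncard_sing (a := none)
            intro o
            constructor
            · exact fun ho => ho.2.1
            · rintro rfl
              exact ⟨none_mem _, rfl, h⟩
        · intro y
          show (y ≠ x ∧ (bt R x y 0 ∧ bt R y x 0 ∧ (lab y).2.2 = none)) ↔ _
          rw [hb0, hb0, hl3, hmap]
          constructor
          · rintro ⟨h1, h2, h3, h4⟩
            have h5 : y.1.1 = x.1.1 := by omega
            refine ⟨h5, h4, fun h6 => h1 ?_⟩
            apply Subtype.ext
            exact Sigma.ext h5 (by rw [h4, h6])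
          · rintro ⟨h1, h2, h3⟩
            refine ⟨fun h4 => h3 (by rw [← h4]; exact h2), by omega, by omega, h2⟩
      · -- the next block
        by_cases h : x.1.1 = T
        · have h1 : (lab x).2.1 = none := by rw [hl2, if_pos h]
          simp only [h1, if_true]
          apply hpn0
          intro y hy
          have := hle y
          rw [hb0, hb0] at hy
          omega
        · have h1 : (lab x).2.1 ≠ none := by rw [hl2, if_neg h]; simp
          have h2 := hle x
          simp only [h1, if_false, Bool.false_eq_true]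
          rw [hpn x _ (x.1.1 + 1) (by omega) (fun _ => True)]
          · have h3 : {o : Ob J | o ∈ blk (v (x.1.1 + 1)) ∧ True} =
                ((blk (v (x.1.1 + 1)) : Finset (Ob J)) : Set (Ob J)) := by
              ext o
              simp
            rw [h3, Set.ncard_coe_finset, card_blk]
            omega
          · intro y
            rw [hb0, hb0]
            constructor
            · rintro ⟨h3, h4, h5⟩
              exact ⟨by omega, trivial⟩
            · rintro ⟨h3, -⟩
              exact ⟨hne _ _ (by omega), by omega, by omega⟩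
      · -- the previous block
        by_cases h : x.1.1 = 0
        · have h1 : (lab x).1 = none := by rw [hl1, if_pos h]
          simp only [h1, if_true]
          apply hpn0
          intro y hy
          rw [hb0, hb0] at hy
          omega
        · have h1 : (lab x).1 ≠ none := by rw [hl1, if_neg h]; simp
          have h2 := hle x
          simp only [h1, if_false, Bool.false_eq_true]
          rw [hpn x _ (x.1.1 - 1) (by omega) (fun _ => True)]
          · have h3 : {o : Ob J | o ∈ blk (v (x.1.1 - 1)) ∧ True} =
                ((blk (v (x.1.1 - 1)) : Finset (Ob J)) : Set (Ob J)) := by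
              ext o
              simp
            rw [h3, Set.ncard_coe_finset, card_blk]
            omega
          · intro y
            rw [hb0, hb0]
            constructor
            · rintro ⟨h3, h4, h5⟩
              exact ⟨by omega, trivial⟩
            · rintro ⟨h3, -⟩
              exact ⟨hne _ _ (by omega), by omega, by omega⟩
    · -- outgoing edges
      unfold AM.outc at hp'
      have h2 := hle x
      by_cases h : x.1.1 = T
      · have h1 : (lab x).2.1 = none := by rw [hl2, if_pos h]
        simp only [h1, List.mem_singleton] at hp'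
        subst hp'
        simp only [if_true]
        apply hpn0
        intro y hy
        have := hle y
        rw [hb1] at hy
        omega
      · have h1 : (lab x).2.1 = some (e x.1.1) := by rw [hl2, if_neg h]
        simp only [h1] at hp'
        have hg := hG x.1.1 (by omega)
        by_cases hd : M.dir (e x.1.1) = true
        · rw [if_pos hd] at hp' hg
          rw [List.mem_cons] at hp'
          rcases hp' with rfl | hp'
          · simp only [if_true]
            apply hpn0
            intro y hy
            rw [hb1, hl3, hmap] at hy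
            exact (hg.1 _ _ hy.1.2).2.2 hy.2
          · obtain ⟨j, -, rfl⟩ := List.mem_map.1 hp'
            simp only [if_true]
            rw [hpn x _ (x.1.1 + 1) (by omega)
              (fun o => G x.1.1 x.1.2 o ∧ (o.map Sigma.fst : Option J) = some j)]
            · rw [ncard_tok _ j (G x.1.1 x.1.2) (fun o ho => (hg.1 _ _ ho).2.1),
                hg.2.1 _ (hbl x) j, hl3]
              generalize (x.1.2.map Sigma.fst : Option J) = o
              cases o <;> rfl
            · intro y
              rw [hb1, hl3]
              constructor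
              · rintro ⟨-, ⟨h3, h4⟩, h5⟩
                exact ⟨h3, h4, h5⟩
              · rintro ⟨h3, h4, h5⟩
                exact ⟨hne _ _ (by omega), ⟨h3, h4⟩, h5⟩
        · rw [if_neg hd] at hp' hg
          rw [List.mem_singleton] at hp'
          subst hp'
          simp only [if_true]
          rw [hpn x _ (x.1.1 + 1) (by omega) (fun o => G x.1.1 x.1.2 o)]
          · rw [hl3]
            simp only [hmap]
            by_cases h3 : x.1.2 = none
            · rw [if_pos h3]
              exact ncard_zero fun o ho => (hg.1 _ _ ho.2).2.2 h3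
            · rw [if_neg h3]
              obtain ⟨o, ho⟩ := hg.2.2.1 _ (hbl x) h3
              apply ncard_sing (a := o)
              intro o'
              constructor
              · exact fun ho' => hg.2.2.2 _ _ _ ho'.2 ho
              · rintro rfl
                exact ⟨(hg.1 _ _ ho).1, ho⟩
          · intro y
            rw [hb1]
            constructor
            · rintro ⟨-, h3, h4⟩
              exact ⟨h3, h4⟩
            · rintro ⟨h3, h4⟩
              exact ⟨hne _ _ (by omega), h3, h4⟩
    · -- incoming edges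
      unfold AM.inc at hp'
      have h2 := hle x
      by_cases h : x.1.1 = 0
      · have h1 : (lab x).1 = none := by rw [hl1, if_pos h]
        simp only [h1, List.mem_singleton] at hp'
        subst hp'
        simp only [if_true]
        apply hpn0
        intro y hy
        rw [hb1] at hy
        omega
      · have h1 : (lab x).1 = some (e (x.1.1 - 1)) := by rw [hl1, if_neg h]
        simp only [h1] at hp'
        obtain ⟨s, hs⟩ : ∃ s, x.1.1 = s + 1 := ⟨x.1.1 - 1, by omega⟩
        rw [hs, Nat.add_sub_cancel] at hp'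
        have hg := hG s (by omega)
        have hbx : x.1.2 ∈ blk (v (s + 1)) := by rw [← hs]; exact hbl x
        by_cases hd : M.dir (e s) = true
        · rw [if_pos hd] at hp' hg
          rw [List.mem_singleton] at hp'
          subst hp'
          simp only [if_true]
          rw [hpn x _ s (by omega) (fun o => G s o x.1.2)]
          · rw [hl3]
            simp only [hmap]
            by_cases h3 : x.1.2 = none
            · rw [if_pos h3]
              exact ncard_zero fun o ho => (hg.1 _ _ ho.2).2.2 h3
            · rw [if_neg h3]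
              obtain ⟨o, ho⟩ := hg.2.2.1 _ hbx h3
              apply ncard_sing (a := o)
              intro o'
              constructor
              · exact fun ho' => hg.2.2.2 _ _ _ ho'.2 ho
              · rintro rfl
                exact ⟨(hg.1 _ _ ho).1, ho⟩
          · intro y
            rw [hb1]
            constructor
            · rintro ⟨-, h3, h4⟩
              have h5 : y.1.1 = s := by omega
              rw [h5] at h4
              exact ⟨h5, h4⟩
            · rintro ⟨h3, h4⟩
              refine ⟨hne _ _ (by omega), by omega, ?_⟩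
              rw [h3]
              exact h4
        · rw [if_neg hd] at hp' hg
          rw [List.mem_cons] at hp'
          rcases hp' with rfl | hp'
          · simp only [if_true]
            apply hpn0
            intro y hy
            rw [hb1, hl3, hmap] at hy
            have h5 : y.1.1 = s := by omega
            have h6 := hy.1.2
            rw [h5] at h6
            exact (hg.1 _ _ h6).2.2 hy.2
          · obtain ⟨j, -, rfl⟩ := List.mem_map.1 hp'
            simp only [if_true]
            rw [hpn x _ s (by omega)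
              (fun o => G s o x.1.2 ∧ (o.map Sigma.fst : Option J) = some j)]
            · rw [ncard_tok _ j (fun o => G s o x.1.2) (fun o ho => (hg.1 _ _ ho).2.1),
                hg.2.1 _ hbx j, hl3]
              generalize (x.1.2.map Sigma.fst : Option J) = o
              cases o <;> rfl
            · intro y
              rw [hb1, hl3]
              constructor
              · rintro ⟨-, ⟨h3, h4⟩, h5⟩
                have h6 : y.1.1 = s := by omega
                rw [h6] at h4
                exact ⟨h6, h4, h5⟩
              · rintro ⟨h3, h4, h5⟩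
                refine ⟨hne _ _ (by omega), ⟨by omega, ?_⟩, h5⟩
                rw [h3]
                exact h4
  · intro b
    refine Eq.trans ?_ (count_stage T v (M.stg T e) b)
    congr 1
    ext x
    have h1 : M.stl (lab x) = M.stg T e x.1.1 := by
      unfold AM.stl AM.stg
      rw [hl2]
      have := hle x
      by_cases h : x.1.1 = T
      · rw [if_pos h, if_neg (by omega)]
      · rw [if_neg h, if_pos (by omega)]
    simp only [Set.mem_ofPred_eq, h1]

end Pool.Agent.H74.CH
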