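import Pool.Agent.H46.CH.LT
import Pool.Agent.H33.JS.NU

/-!
# Short accepting computations
-/

set_option autoImplicit false

namespace Pool.Agent.H74.CH

open Classical Pool.Agent.H46.CH
open Pool.Agent.H8.VR (C2)
open Pool.Agent.H8.JS (NTM Cfg Mv IsComp lang num)

/-- prefixes of computations -/
theorem IsComp.pre {M : NTM} {c₀ : Cfg M} {l : ℕ} {cc : ℕ → Cfg M} (h : IsComp M c₀ l cc) {i : ℕ}
    (hi : i ≤ l) : IsComp M c₀ i cc :=
  ⟨h.1, fun t ht => h.2 t (by omega)⟩

/-- heads and blank cells -/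
theorem conf (M : NTM) (x : List Bool) (s : ℕ) (hs : Space M x s) (hx : x.length ≤ s) {l : ℕ}
    {cc : ℕ → Cfg M} (h : IsComp M (Pool.Agent.H8.JS.init M x) l cc) :
    ∀ i ≤ l, (∀ j, (cc i).hd j < s) ∧ ∀ j p, s ≤ p → (cc i).tp j p = .bl := by
  intro i
  induction i with
  | zero =>
    intro hi
    refine ⟨hs 0 cc (IsComp.pre h hi), fun j p hp => ?_⟩
    rw [h.1]
    show (if j = 0 then (match x[p]? with
      | some b => Pool.Agent.H8.JS.Sym.bit b
      | none => .bl) else .bl) = Pool.Agent.H8.JS.Sym.bl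
    have h1 : x[p]? = none := List.getElem?_eq_none (by omega)
    rw [h1]
    simp
  | succ i ih =>
    intro hi
    obtain ⟨h1, h2⟩ := ih (by omega)
    refine ⟨hs _ cc (IsComp.pre h hi), fun j p hp => ?_⟩
    obtain ⟨a', d, -, -, h3⟩ := h.2 i (by omega)
    have h4 := h1 j
    rw [h3, if_neg (by omega)]
    exact h2 j p hp

/-- a loop can be cut out -/
theorem cut {M : NTM} {c₀ : Cfg M} {l : ℕ} {cc : ℕ → Cfg M} (h : IsComp M c₀ l cc) {i i' : ℕ}
    (h1 : i < i') (h2 : i' ≤ l) (h3 : cc i = cc i') :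
    ∃ cc' : ℕ → Cfg M, IsComp M c₀ (l - (i' - i)) cc' ∧ cc' (l - (i' - i)) = cc l := by
  refine ⟨fun t => if t ≤ i then cc t else cc (t + (i' - i)), ⟨?_, ?_⟩, ?_⟩
  · simp only [Nat.zero_le, if_true]
    exact h.1
  · intro t ht
    by_cases h4 : t + 1 ≤ i
    · simp only [h4, if_true, show t ≤ i by omega]
      exact h.2 t (by omega)
    · by_cases h5 : t ≤ i
      · have h6 : t = i := by omega
        subst h6
        simp only [h4, if_false, le_refl, if_true]
        rw [h3, show t + 1 + (i' - t) = i' + 1 by omega]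
        exact h.2 i' (by omega)
      · simp only [h4, if_false, h5]
        rw [show t + 1 + (i' - i) = t + (i' - i) + 1 by omega]
        exact h.2 _ (by omega)
  · by_cases h4 : l - (i' - i) ≤ i
    · simp only [h4, if_true]
      have h5 : l = i' := by omega
      have h6 : l - (i' - i) = i := by omega
      rw [h6, h3, h5]
    · simp only [h4, if_false]
      congr 1
      omega

/-- the number of the configurations -/
theorem conf_card (M : NTM) [Fintype M.Q] [Fintype (Pool.Agent.H8.JS.Sym M.Γ)] (s l : ℕ)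
    (cc : ℕ → Cfg M)
    (h : ∀ i ≤ l, (∀ j, (cc i).hd j < s) ∧ ∀ j p, s ≤ p → (cc i).tp j p = .bl)
    (hinj : ∀ i ≤ l, ∀ i' ≤ l, cc i = cc i' → i = i') :
    l + 1 ≤ Fintype.card M.Q * (s ^ (M.k + 1) *
      (Fintype.card (Pool.Agent.H8.JS.Sym M.Γ) ^ s) ^ (M.k + 1)) := by
  let F : Fin (l + 1) → M.Q × ((Fin (M.k + 1) → Fin s) ×
      (Fin (M.k + 1) → Fin s → Pool.Agent.H8.JS.Sym M.Γ)) := fun i =>
    ((cc i).q, fun j => ⟨(cc i).hd j, (h i (by omega)).1 j⟩, fun j p => (cc i).tp j p)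
  have hF : Function.Injective F := by
    intro i i' hii
    have h1 : (cc i).q = (cc i').q := congrArg Prod.fst hii
    have h2 : (fun j => (⟨(cc i).hd j, (h i (by omega)).1 j⟩ : Fin s)) =
      fun j => ⟨(cc i').hd j, (h i' (by omega)).1 j⟩ := congrArg (fun z => z.2.1) hii
    have h3 : (fun (j : Fin (M.k + 1)) (p : Fin s) => (cc i).tp j p) =
      fun (j : Fin (M.k + 1)) (p : Fin s) => (cc i').tp j p := congrArg (fun z => z.2.2) hii
    apply Fin.ext
    apply hinj i (by omega) i' (by omega)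
    apply Cfg.ext h1
    · funext j
      have := congrFun h2 j
      exact congrArg Fin.val this
    · funext j p
      by_cases hp : p < s
      · exact congrFun (congrFun h3 j) ⟨p, hp⟩
      · rw [(h i (by omega)).2 j p (by omega), (h i' (by omega)).2 j p (by omega)]
  have h4 := Fintype.card_le_of_injective F hF
  simpa using h4

theorem pf_SHC : T_SHC := by
  intro M c hsp
  have hQ := M.finQ
  have hΓ := M.finΓ
  have : Fintype M.Q := Fintype.ofFinite _
  have : Fintype (Pool.Agent.H8.JS.Sym M.Γ) := Fintype.ofFinite _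
  set q := Fintype.card M.Q with hq
  set σ := Fintype.card (Pool.Agent.H8.JS.Sym M.Γ) with hσ
  refine ⟨2 * (q + 2 * σ * c * (M.k + 1)), fun x hacc => ?_⟩
  -- an accepting computation of minimal length
  have hex : ∃ l, ∃ cc : ℕ → Cfg M, IsComp M (Pool.Agent.H8.JS.init M x) l cc ∧
      (cc l).q = M.acc := hacc
  obtain ⟨cc, hcc, hacc'⟩ := Nat.find_spec hex
  set l := Nat.find hex with hl
  have hmin : ∀ l' < l, ¬ ∃ cc : ℕ → Cfg M, IsComp M (Pool.Agent.H8.JS.init M x) l' cc ∧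
      (cc l').q = M.acc := fun l' h => Nat.find_min hex h
  refine ⟨l, cc, hcc, hacc', ?_⟩
  set s := c * (x.length + 1) with hs
  have hc : 1 ≤ c := by
    have h1 := hsp x 0 cc (IsComp.pre hcc (Nat.zero_le _)) 0
    by_contra h2
    have h3 : c = 0 := by omega
    rw [h3] at h1
    omega
  have hxs : x.length ≤ s := by
    rw [hs]
    nlinarith
  have hinj' : ∀ i i', i < i' → i' ≤ l → cc i ≠ cc i' := by
    intro i i' h1 h2 h3
    obtain ⟨cc', h4, h5⟩ := cut hcc h1 h2 h3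
    exact hmin (l - (i' - i)) (by omega) ⟨cc', h4, by rw [h5]; exact hacc'⟩
  have hinj : ∀ i ≤ l, ∀ i' ≤ l, cc i = cc i' → i = i' := by
    intro i hi i' hi' h1
    rcases lt_trichotomy i i' with h2 | h2 | h2
    · exact absurd h1 (hinj' i i' h2 hi')
    · exact h2
    · exact absurd h1.symm (hinj' i' i h2 hi)
  have hcard := conf_card M s l cc (conf M x s (hsp x) hxs hcc) hinj
  rw [← hq, ← hσ] at hcard
  have hnum := (Pool.Agent.H33.JS.num_bd x).1
  set N := num x with hN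
  set n := x.length + 1 with hn
  have h1 : q ≤ 2 ^ (q * n) := by
    calc q ≤ 2 ^ q := Nat.lt_two_pow_self.le
      _ ≤ 2 ^ (q * n) := Nat.pow_le_pow_right (by norm_num) (by nlinarith)
  have h2 : s ^ (M.k + 1) ≤ 2 ^ (s * (M.k + 1)) := by
    rw [pow_mul]
    exact Nat.pow_le_pow_left Nat.lt_two_pow_self.le _
  have hσ1 : 1 ≤ σ := by
    rw [hσ]
    exact Fintype.card_pos_iff.2 ⟨.bl⟩
  have h3 : (σ ^ s) ^ (M.k + 1) ≤ 2 ^ (σ * s * (M.k + 1)) := by
    have h5 : 2 ^ (σ * s * (M.k + 1)) = ((2 ^ σ) ^ s) ^ (M.k + 1) := by rw [pow_mul, pow_mul]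
    rw [h5]
    exact Nat.pow_le_pow_left (Nat.pow_le_pow_left Nat.lt_two_pow_self.le _) _
  have h4 : 2 ^ n ≤ (N + 1) ^ 2 := by
    rw [hn, pow_succ]
    nlinarith
  calc l ≤ q * (s ^ (M.k + 1) * (σ ^ s) ^ (M.k + 1)) := by omega
    _ ≤ 2 ^ (q * n) * (2 ^ (s * (M.k + 1)) * 2 ^ (σ * s * (M.k + 1))) :=
      Nat.mul_le_mul h1 (Nat.mul_le_mul h2 h3)
    _ = 2 ^ (q * n + (s * (M.k + 1) + σ * s * (M.k + 1))) := by rw [pow_add, pow_add]
    _ ≤ 2 ^ (n * (q + 2 * σ * c * (M.k + 1))) := by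
      apply Nat.pow_le_pow_right (by norm_num)
      have h5 : s * (M.k + 1) ≤ σ * s * (M.k + 1) := by
        have : s ≤ σ * s := by nlinarith
        exact Nat.mul_le_mul_right _ this
      have h6 : n * (q + 2 * σ * c * (M.k + 1)) = q * n + 2 * (σ * s * (M.k + 1)) := by
        rw [hs]; ring
      rw [h6]
      omega
    _ = (2 ^ n) ^ (q + 2 * σ * c * (M.k + 1)) := by rw [pow_mul]
    _ ≤ ((N + 1) ^ 2) ^ (q + 2 * σ * c * (M.k + 1)) := Nat.pow_le_pow_left h4 _
    _ = (N + 1) ^ (2 * (q + 2 * σ * c * (M.k + 1))) := by rw [← pow_mul]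

end Pool.Agent.H74.CH
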