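import Pool.Agent.H72.CH.Targets2

/-!
# Chains of equivalence relations, row PPN: the fibres do not construct `K₃`
-/

set_option autoImplicit false

namespace Pool.Agent.H74.CH

open Pool.Agent.H68.BP Pool.Agent.H58.SF Pool.Agent.H53.NR
open Pool.Agent.H57.LCI (Pre Realizes)
open Pool.Agent.H57.AR (tp ty Ty HomEq)
open Pool.Agent.H57.SO (sigF)
open Pool.Agent.H57.LH (Hmg RmV SS)
open Pool.Agent.H44.KR (HB Amg Tyi TpOn Rz LcN)
open Pool.Agent.H44.FB (CptC EmbC fbI LocP)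
open Pool.Agent.H35.FB (PP)
open Pool.Agent.H72.CH
open Function

/-- dummy names of all sorts -/
theorem dum_exists {V N : Type} {ρ δ : Sig} {𝔹 : Str ρ V} {m : ℕ} {lv : V → V → ℕ}
    {𝔻 : Str δ N} {st : N → Fin m} {β : (Fin m → N) → V} (hV : HV 𝔹 m lv)
    (hNm : Nm 𝔹 m lv 𝔻 st β) : ∃ dum : Fin m → N, ∀ i, st (dum i) = i := by
  obtain ⟨v⟩ := hV.ne
  obtain ⟨x, -, hx, -⟩ := hNm.uni (Fin m) id (fun _ => v) (by
    intro w w' j hj
    have h1 : w.1 = w'.1 := by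
      funext i
      exact (w.2 i).trans (w'.2 i).symm
    constructor
    · intro _ i _
      rw [h1]
    · intro _
      rw [hV.lev.pl.self]
      exact hj)
  exact ⟨x, hx⟩

/-- The set of profiles is finite. -/
theorem pis_fin {N : Type} {m n q : ℕ} (t : Fin 3 → Fin n → N) (u : PP → Fin q → N)
    (dum : Fin m → N) : (Pis t u dum).Finite := by
  have h1 : (Set.range (fun (b : (Fin n ⊕ Fin n) ⊕ Fin q) (p : PP) => wit t u p b)).Finite :=
    Set.finite_range _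
  have h2 : (Set.range (fun (i : Fin m) (_ : PP) => dum i)).Finite := Set.finite_range _
  refine (h1.union h2).subset ?_
  rintro π (⟨b, rfl⟩ | ⟨i, rfl⟩)
  · exact Or.inl ⟨b, rfl⟩
  · exact Or.inr ⟨i, rfl⟩

/-- The set of vertex profiles is finite. -/
theorem tts_fin {N : Type} {m n : ℕ} (t : Fin 3 → Fin n → N) (dum : Fin m → N) :
    (TTs t dum).Finite := by
  have h1 : (Set.range (fun (b : Fin n) (a : Fin 3) => t a b)).Finite := Set.finite_range _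
  have h2 : (Set.range (fun (i : Fin m) (_ : Fin 3) => dum i)).Finite := Set.finite_range _
  refine (h1.union h2).subset ?_
  rintro π (⟨b, rfl⟩ | ⟨i, rfl⟩)
  · exact Or.inl ⟨b, rfl⟩
  · exact Or.inr ⟨i, rfl⟩

theorem lfP_mem {N : Type} {m n q : ℕ} (t : Fin 3 → Fin n → N) (u : PP → Fin q → N)
    (dum : Fin m → N) {τ : Fin 3 → N} (h : τ ∈ TTs t dum) : lfP τ ∈ Pis t u dum := by
  rcases h with ⟨b, rfl⟩ | ⟨i, rfl⟩
  · exact Or.inl ⟨Sum.inl (Sum.inl b), rfl⟩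
  · exact Or.inr ⟨i, rfl⟩

theorem rtP_mem {N : Type} {m n q : ℕ} (t : Fin 3 → Fin n → N) (u : PP → Fin q → N)
    (dum : Fin m → N) {τ : Fin 3 → N} (h : τ ∈ TTs t dum) : rtP τ ∈ Pis t u dum := by
  rcases h with ⟨b, rfl⟩ | ⟨i, rfl⟩
  · exact Or.inl ⟨Sum.inl (Sum.inr b), rfl⟩
  · exact Or.inr ⟨i, rfl⟩

/-- The set of flags of profiles of a finite set is finite. -/
theorem fp_fin {N : Type} {m : ℕ} (st : N → Fin m) {PS : Set (PP → N)} (h : PS.Finite) :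
    {w : Fin m → PP → N | FP st PS w}.Finite := by
  refine (Set.Finite.pi' (fun _ : Fin m => h)).subset ?_
  intro w hw i
  exact (hw i).1

theorem pf_PPN : T_PPN := by
  classical
  intro hGLN hPPB hDBE V N ρ σ δ 𝔹 m lv 𝔸 𝔻 st β hV hT hNm hNex hFnc hRg hK M hcon
  apply hK
  have hVn : Nonempty V := hV.ne
  obtain ⟨n, E, hn, ⟨q, φ, hφ⟩, ⟨t, ht⟩, ⟨c, hc⟩⟩ := hcon
  -- the witnesses
  have hy : ∀ p : PP, ∃ y : Fin q → N, ∀ a ∈ φ, a.Holds (fbI (NmS 𝔸 st β) 𝔻 M ∅)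
      (Sum.elim (Sum.elim (t p.1.1) (t p.1.2)) y) := fun p =>
    (hφ (Sum.elim (t p.1.1) (t p.1.2))).1 (ht p.1.1 p.1.2 p.2)
  choose u hu using hy
  obtain ⟨dum, hdum⟩ := dum_exists hV hNm
  obtain ⟨e, he, heL, heR⟩ := hRg
  -- the finite sets
  have hfin : (vfl e β '' {w : Fin m → PP → N | FP st (Pis t u dum) w}).Finite :=
    (fp_fin st (pis_fin t u dum)).image _
  obtain ⟨U, hU⟩ : ∃ U : Finset (PP → V), ∀ w, FP st (Pis t u dum) w → vfl e β w ∈ U :=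
    ⟨hfin.toFinset, fun w hw => (Set.Finite.mem_toFinset _).2 ⟨w, hw, rfl⟩⟩
  obtain ⟨U', hUU, hF⟩ := hFnc PP U
  -- the coordinates
  let J : Type := {τ : Fin m → Fin 3 → N // ∀ i, τ i ∈ TTs t dum ∧ ∀ a, st (τ i a) = i}
  have hJf : Finite J := by
    have h1 : {τ : Fin m → Fin 3 → N | ∀ i, τ i ∈ TTs t dum}.Finite :=
      Set.Finite.pi' (fun _ : Fin m => tts_fin t dum)
    have h2 : {τ : Fin m → Fin 3 → N | ∀ i, τ i ∈ TTs t dum ∧ ∀ a, st (τ i a) = i}.Finite :=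
      h1.subset fun τ hτ i => (hτ i).1
    exact h2.to_subtype
  have hJn : Nonempty J := ⟨⟨fun i _ => dum i, fun i => ⟨Or.inr ⟨i, rfl⟩, fun _ => hdum i⟩⟩⟩
  obtain ⟨k, ⟨ε⟩, hk⟩ : ∃ k : ℕ, Nonempty (J ≃ Fin k) ∧ 1 ≤ k :=
    ⟨Nat.card J, ⟨Finite.equivFin _⟩, Nat.one_le_iff_ne_zero.2 Nat.card_pos.ne'⟩
  let xl : J → PP → V := fun τ => vfl e β (fun i => lfP (τ.1 i))
  let xr : J → PP → V := fun τ => vfl e β (fun i => rtP (τ.1 i))
  have hl : ∀ τ, xl τ ∈ U' := fun τ =>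
    hUU (hU _ fun i => ⟨lfP_mem t u dum (τ.2 i).1, fun p => (τ.2 i).2 _⟩)
  have hr : ∀ τ, xr τ ∈ U' := fun τ =>
    hUU (hU _ fun i => ⟨rtP_mem t u dum (τ.2 i).1, fun p => (τ.2 i).2 _⟩)
  -- the relation
  obtain ⟨R, hR⟩ : ∃ R : (Fin k → V) → (Fin k → V) → Prop, R = fun X Y =>
      ∃ F : (PP → V) → V, LocP 𝔸 U' F ∧ (∀ τ, X (ε τ) = F (xl τ)) ∧
        ∀ τ, Y (ε τ) = F (xr τ) := ⟨_, rfl⟩
  -- the values at the constant profiles
  let C : Type := {ν : Fin m → N // ∀ i, (fun _ => ν i) ∈ TTs t dum ∧ st (ν i) = i}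
  let cst : C → J := fun ν => ⟨fun i _ => ν.1 i, fun i => ⟨(ν.2 i).1, fun _ => (ν.2 i).2⟩⟩
  let kap : (Fin k → V) → C → V := fun X ν => X (ε (cst ν))
  have hkap : ∀ X Y, R X Y → kap X = kap Y := by
    intro X Y hXY
    rw [hR] at hXY
    obtain ⟨F, -, hX, hY⟩ := hXY
    funext ν
    exact (hX (cst ν)).trans (hY (cst ν)).symm
  -- the colourings
  have hcol : ∀ κ : C → V, ∃ d : (Fin k → V) → Fin 3, ∀ X Y, R X Y ∧ kap X = κ → d X ≠ d Y := by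
    intro κ
    refine hDBE (Fin k → V) (fun X Y => R X Y ∧ kap X = κ) ?_
    intro k' A η hA hη
    obtain ⟨T, hTT⟩ := hPPB hGLN V N ρ σ δ 𝔹 m lv 𝔸 𝔻 st β hV hT hNm hNex M n q φ t u dum e
      U U' hu hdum he heL heR hU hUU hF k' A
      (fun g τ => if h : ∀ i, τ i ∈ TTs t dum ∧ ∀ a, st (τ i a) = i then η g (ε ⟨τ, h⟩)
        else Classical.arbitrary V) hA (by
        intro g g' hgg
        have h1 := (hη g g' hgg).1
        rw [hR] at h1
        obtain ⟨F, hFl, hX, hY⟩ := h1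
        refine ⟨F, hFl, fun τ hτ => ⟨?_, ?_⟩⟩
        · rw [dif_pos hτ]
          exact hX ⟨τ, hτ⟩
        · rw [dif_pos hτ]
          exact hY ⟨τ, hτ⟩) (by
        intro g g' g₁ g₁' hg hg₁ ν hν
        have h1 := (hη g g' hg).2
        have h2 := (hη g₁ g₁' hg₁).2
        have h3 := congrFun (h1.trans h2.symm) ⟨ν, hν⟩
        have h4 : ∀ i, (fun (_ : Fin 3) => ν i) ∈ TTs t dum ∧ ∀ _ : Fin 3, st (ν i) = i :=
          fun i => ⟨(hν i).1, fun _ => (hν i).2⟩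
        rw [dif_pos h4, dif_pos h4]
        exact h3)
    refine ⟨fun g => c (T g), fun g g' hgg => hc _ _ ?_⟩
    exact (hφ (Sum.elim (T g) (T g'))).2 (hTT g g' hgg)
  choose d hd using hcol
  refine ⟨k, R, hk, ?_, ?_, ?_⟩
  · rw [hR]
    exact Pool.Agent.H35.FB.pp_loc 𝔸 U' ε xl xr hl hr
  · refine ⟨fun a j => e (β (fun i => (ε.symm j).1 i a)), fun a b hab => ?_⟩
    rw [hR]
    refine ⟨fun z => z ⟨(a, b), hab⟩, fun l z _ hp => hp _, fun τ => ?_, fun τ => ?_⟩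
    · show e (β (fun i => (ε.symm (ε τ)).1 i a)) = xl τ ⟨(a, b), hab⟩
      rw [Equiv.symm_apply_apply]
      rfl
    · show e (β (fun i => (ε.symm (ε τ)).1 i b)) = xr τ ⟨(a, b), hab⟩
      rw [Equiv.symm_apply_apply]
      rfl
  · refine ⟨fun X => d (kap X) X, fun X Y hXY => ?_⟩
    have h1 := hkap X Y hXY
    show d (kap X) X ≠ d (kap Y) Y
    rw [← h1]
    exact hd (kap X) X Y ⟨hXY, rfl⟩

end Pool.Agent.H74.CH
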