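import Pool.Agent.H46.CH.LT

/-!
# The clock: existence
-/

set_option autoImplicit false

namespace Pool.Agent.H74.CH

open Classical Pool.Agent.H46.CH
open Pool.Agent.H8.VR (C2)
open Pool.Agent.H8.JS (NTM Cfg Mv IsComp lang num)

/-- paths are composed -/
theorem path_trans {J : Type} [Fintype J] (M : AM J) {e : M.I} {v : J → ℕ} {e₁ : M.I} {v₁ : J → ℕ}
    {s : ℕ} (h : M.Path e v e₁ v₁ s) {e₂ : M.I} {v₂ : J → ℕ} {s' : ℕ}
    (h' : M.Path e₁ v₁ e₂ v₂ s') : M.Path e v e₂ v₂ (s + s') := by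
  induction h' with
  | nil => exact h
  | snoc e₂ v₂ e₃ v₃ s' h' hr hn ih =>
    rw [← add_assoc]
    exact AM.Path.snoc _ _ _ _ _ _ _ ih hr hn

theorem dl_true {p : Prop} (h : p) : dl p = 1 := if_pos h

theorem dl_false {p : Prop} (h : ¬ p) : dl p = 0 := if_neg h

theorem geo (n i : ℕ) : ∑ l ∈ Finset.range i, n * (n + 1) ^ l + 1 = (n + 1) ^ i := by
  induction i with
  | zero => simp
  | succ i ih =>
    rw [Finset.sum_range_succ, pow_succ, ← ih]
    ring

theorem geo' (n d : ℕ) (i : Fin d) :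
    ∑ l : Fin d, (if l < i then n else 0) * (n + 1) ^ (l : ℕ) + 1 = (n + 1) ^ (i : ℕ) := by
  rw [← geo n i]
  congr 1
  have h1 : ∑ l : Fin d, (if l < i then n else 0) * (n + 1) ^ (l : ℕ) =
      ∑ l ∈ Finset.range d, (if l < (i : ℕ) then n else 0) * (n + 1) ^ l := by
    rw [← Fin.sum_univ_eq_sum_range (fun l => (if l < (i : ℕ) then n else 0) * (n + 1) ^ l)]
    rfl
  rw [h1]
  have h2 : ∀ l, (if l < (i : ℕ) then n else 0) * (n + 1) ^ l =
      if l < (i : ℕ) then n * (n + 1) ^ l else 0 := by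
    intro l
    split_ifs <;> simp
  simp only [h2]
  rw [← Finset.sum_filter]
  refine Finset.sum_congr ?_ fun _ _ => rfl
  ext l
  simp only [Finset.mem_filter, Finset.mem_range]
  have := i.2
  omega

/-- one step of the clock -/
theorem clock_step (hIS : T_IS) (M : NTM) (B : ℕ) (cd : TS M → ℕ) (d n : ℕ) (v : Ct M.k d → ℕ)
    (hv : ∀ l, v (.u l) + v (.w l) = n) (hZ : v .Z = 0) (i : Fin d) (hi : 0 < v (.w i))
    (hlt : ∀ l, l < i → v (.w l) = 0) :
    ∃ v₁ v' : Ct M.k d → ℕ, (tmA M B cd d).Rel (.ipop i) v v₁ ∧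
      (tmA M B cd d).Rel (.ipush i) v₁ v' ∧ (∀ l, v' (.u l) + v' (.w l) = n) ∧ v' .Z = 0 ∧
      ∑ l, v' (.w l) * (n + 1) ^ (l : ℕ) < ∑ l, v (.w l) * (n + 1) ^ (l : ℕ) := by
  obtain ⟨v₁, hv₁⟩ : ∃ v₁ : Ct M.k d → ℕ, v₁ = fun j => match j with
    | .w l => v (.w l) - dl (l = i)
    | j => v j := ⟨_, rfl⟩
  obtain ⟨v', hv'⟩ : ∃ v' : Ct M.k d → ℕ, v' = fun j => match j with
    | .u l => if l < i then 0 else v (.u l) + dl (l = i)
    | .w l => (v (.w l) - dl (l = i)) + if l < i then v (.u l) else 0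
    | j => v j := ⟨_, rfl⟩
  have hw : ∀ l, v (.w l) = (v (.w l) - dl (l = i)) + dl (l = i) := by
    intro l
    by_cases h : l = i
    · rw [dl_true h, h]
      omega
    · rw [dl_false h]
      omega
  have hpt : ∀ l, v' (.w l) + dl (l = i) = v (.w l) + if l < i then n else 0 := by
    intro l
    have h1 := hw l
    have h2 := hv l
    have h3 : v' (.w l) = (v (.w l) - dl (l = i)) + if l < i then v (.u l) else 0 := by
      rw [hv']
    rw [h3]
    by_cases h : l < i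
    · have h4 := hlt l h
      rw [if_pos h, if_pos h]
      omega
    · rw [if_neg h, if_neg h]
      omega
  refine ⟨v₁, v', ?_, ?_, ?_, ?_, ?_⟩
  · rw [(hIS M B cd d v v₁).2.2.1 i, hv₁]
    refine ⟨hw, ?_, fun _ => rfl, rfl, rfl, rfl, fun _ => rfl, fun _ => rfl⟩
    show v .Z = v .Z + _
    rw [Finset.sum_eq_zero, add_zero]
    intro l _
    by_cases h : l < i
    · rw [if_pos h]
      show v (.w l) - dl (l = i) = 0
      rw [hlt l h, Nat.zero_sub]
    · rw [if_neg h]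
  · rw [(hIS M B cd d v₁ v').2.2.2 i, hv₁, hv']
    exact ⟨fun _ => rfl, fun _ => rfl, rfl, rfl, rfl, rfl, fun _ => rfl, fun _ => rfl⟩
  · intro l
    have h1 := hw l
    have h2 := hv l
    have h3 := hpt l
    have h4 : v' (.u l) = if l < i then 0 else v (.u l) + dl (l = i) := by rw [hv']
    rw [h4]
    by_cases h : l < i
    · have h5 := hlt l h
      have h6 : l ≠ i := ne_of_lt h
      rw [if_pos h] at h3 ⊢
      rw [dl_false h6] at h3
      omega
    · rw [if_neg h] at h3 ⊢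
      omega
  · rw [hv']
    exact hZ
  · have h1 : ∑ l, v' (.w l) * (n + 1) ^ (l : ℕ) + (n + 1) ^ (i : ℕ) =
        ∑ l, v (.w l) * (n + 1) ^ (l : ℕ) +
          ∑ l : Fin d, (if l < i then n else 0) * (n + 1) ^ (l : ℕ) := by
      have h2 : (n + 1) ^ (i : ℕ) = ∑ l : Fin d, dl (l = i) * (n + 1) ^ (l : ℕ) := by
        rw [Finset.sum_eq_single i]
        · rw [dl_true rfl, one_mul]
        · intro l _ hl
          rw [dl_false hl, zero_mul]
        · intro h
          exact absurd (Finset.mem_univ i) h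
      rw [h2, ← Finset.sum_add_distrib, ← Finset.sum_add_distrib]
      refine Finset.sum_congr rfl fun l _ => ?_
      rw [← add_mul, ← add_mul, hpt l]
    have h3 := geo' n d i
    omega

theorem pf_O2 (hIR : T_IR) (hIS : T_IS) : T_O2 := by
  intro M B cd d n v hv
  have key : ∀ (k : ℕ) (v : Ct M.k d → ℕ), ∑ l : Fin d, v (.w l) * (n + 1) ^ (l : ℕ) = k →
      (∀ l, v (.u l) + v (.w l) = n) → v .Z = 0 → ∀ e₀ : Ins M d, (∀ i, Ins.nx e₀ (.ipop i)) →
      Ins.nx e₀ .fpop → ∃ (e : Ins M d) (v₂ : Ct M.k d → ℕ) (s : ℕ), Ins.nx e₀ e ∧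
        (tmA M B cd d).Path e v .fpush v₂ s := by
    intro k
    induction k using Nat.strong_induction_on with
    | _ k ih =>
      intro v hk hn hZ e₀ he he'
      by_cases h0 : ∀ l, v (.w l) = 0
      · refine ⟨.fpop, v, _, he', AM.Path.snoc _ _ _ _ _ _ _ (AM.Path.nil _ _) ?_ trivial⟩
        rw [(hIR M B cd d v v).2.2.2.2.2.2.1]
        refine ⟨?_, fun _ _ => rfl⟩
        rw [Finset.sum_eq_zero (fun l _ => h0 l), add_zero]
      · push Not at h0
        have hex : ∃ m : ℕ, ∃ h : m < d, v (.w ⟨m, h⟩) ≠ 0 := by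
          obtain ⟨l, hl⟩ := h0
          exact ⟨l.1, l.2, hl⟩
        obtain ⟨hm, hm2⟩ := Nat.find_spec hex
        set i : Fin d := ⟨Nat.find hex, hm⟩ with hi
        have hlt : ∀ l, l < i → v (.w l) = 0 := by
          intro l hl
          by_contra h1
          exact Nat.find_min hex (m := l.1) hl ⟨l.2, h1⟩
        obtain ⟨v₁, v', h1, h2, h3, h4, h5⟩ := clock_step hIS M B cd d n v hn hZ i
          (Nat.pos_of_ne_zero hm2) hlt
        rw [hk] at h5
        obtain ⟨e, v₂, s, h6, h7⟩ := ih _ h5 v' rfl h3 h4 (.ipush i) (fun _ => trivial) trivial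
        refine ⟨.ipop i, v₂, _, he i, path_trans _ (AM.Path.snoc _ _ _ _ _ _ _
          (AM.Path.snoc _ _ _ _ _ _ _ (AM.Path.nil _ _) h1 ?_) h2 h6) h7⟩
        show i = i
        exact rfl
  refine key _ v rfl (fun l => ?_) ?_ .begB (fun _ => trivial) trivial
  · rw [hv, hv]
    simp
  · rw [hv]

end Pool.Agent.H74.CH
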